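import Mathlib

open Matrix

namespace Pool.Agent.Results.MP_62e324_al.OreRSRC

/-- `δ` is a `σ`-derivation. -/
def IsSigmaDer {R : Type} [Ring R] (σ : R →+* R) (δ : R →+ R) : Prop :=
  ∀ r s, δ (r * s) = δ r * s + σ r * δ s

/-- `S`, with the map `ι : R → S` and the element `x`, is the Ore extension `R[x; σ, δ]`: every
element of `S` is uniquely a finite sum `∑ ι (r i) * x ^ i`, and `x r = σ(r) x + δ(r)`. -/
def IsOreExtension {R S : Type} [Ring R] [Ring S] (σ : R →+* R) (δ : R →+ R) (ι : R →+* S)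
    (x : S) : Prop :=
  (Function.Bijective fun c : ℕ →₀ R => c.sum fun i r => ι r * x ^ i) ∧
    ∀ r, x * ι r = ι (σ r) * x + ι (δ r)

/-- The right strong rank condition. -/
def RSRC (A : Type) [Ring A] : Prop :=
  ∀ n : ℕ, 1 ≤ n → ∀ f : (Fin (n + 1) → A) →ₗ[Aᵐᵒᵖ] (Fin n → A), ¬ Function.Injective f

/-- Left multiplication by a matrix as a right module map. -/
def matMap {A : Type} [Ring A] {α β : Type} [Fintype α] (M : Matrix β α A) :
    (α → A) →ₗ[Aᵐᵒᵖ] (β → A) where
  toFun v := M *ᵥ v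
  map_add' := Matrix.mulVec_add M
  map_smul' c v := by
    ext b
    simp [Matrix.mulVec, dotProduct, Finset.sum_mul, mul_assoc]

lemma exists_mat {A : Type} [Ring A] {α β : Type} [Fintype α] [DecidableEq α]
    (f : (α → A) →ₗ[Aᵐᵒᵖ] (β → A)) : ∃ M : Matrix β α A, ∀ v, M *ᵥ v = f v := by
  refine ⟨fun b a => f (Pi.single a 1) b, fun v => ?_⟩
  have : v = ∑ a, MulOpposite.op (v a) • (Pi.single a 1 : α → A) := by
    ext a; simp [Finset.sum_apply, Pi.single_apply]
  conv_rhs => rw [this, map_sum]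
  ext b
  simp only [map_smul, Matrix.mulVec, dotProduct, Finset.sum_apply, Pi.smul_apply,
    MulOpposite.smul_eq_mul_unop, MulOpposite.unop_op]

lemma card_le {A : Type} [Ring A] (h : RSRC A) {α β : Type} [Fintype α] [Fintype β]
    (hβ : 1 ≤ Fintype.card β) (f : (α → A) →ₗ[Aᵐᵒᵖ] (β → A)) (hf : Function.Injective f) :
    Fintype.card α ≤ Fintype.card β := by
  by_contra hlt
  push Not at hlt
  obtain ⟨e⟩ : Nonempty (Fin (Fintype.card β + 1) ↪ α) :=
    Function.Embedding.nonempty_of_card_le (by simpa using hlt)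
  have hs := Function.invFun_surjective e.injective
  let e2 := Fintype.equivFin β
  refine h _ hβ (LinearMap.funLeft Aᵐᵒᵖ A e2.symm ∘ₗ f ∘ₗ
    LinearMap.funLeft Aᵐᵒᵖ A (Function.invFun e)) ?_
  simp only [LinearMap.coe_comp]
  exact (LinearMap.funLeft_injective_of_surjective _ _ _ e2.symm.surjective).comp
    (hf.comp (LinearMap.funLeft_injective_of_surjective _ _ _ hs))

lemma grow {A : Type} [Ring A] {n : ℕ} (f : (Fin (n + 1) → A) →ₗ[Aᵐᵒᵖ] (Fin n → A))
    (hf : Function.Injective f) (m : ℕ) :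
    ∃ g : (Fin n ⊕ Fin m → A) →ₗ[Aᵐᵒᵖ] (Fin n → A), Function.Injective g := by
  induction m with
  | zero =>
    refine ⟨LinearMap.funLeft Aᵐᵒᵖ A Sum.inl, LinearMap.funLeft_injective_of_surjective _ _ _ ?_⟩
    rintro (a | a)
    · exact ⟨a, rfl⟩
    · exact a.elim0
  | succ m ih =>
    obtain ⟨g, hg⟩ := ih
    let r : (Fin n ⊕ Fin (m + 1) → A) →ₗ[Aᵐᵒᵖ] (Fin n ⊕ Fin m → A) :=
      LinearMap.funLeft Aᵐᵒᵖ A (Sum.map id Fin.succ)
    let p : (Fin n ⊕ Fin (m + 1) → A) →ₗ[Aᵐᵒᵖ] (Fin (n + 1) → A) :=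
      LinearMap.pi (Fin.cases (LinearMap.proj (Sum.inr 0))
        (fun j => LinearMap.proj j ∘ₗ g ∘ₗ r))
    refine ⟨f ∘ₗ p, hf.comp ?_⟩
    intro v w hvw
    have h0 : v (Sum.inr 0) = w (Sum.inr 0) := congrFun hvw 0
    have h1 : r v = r w := hg (funext fun j => congrFun hvw j.succ)
    ext (a | a)
    · exact congrFun h1 (Sum.inl a)
    · induction a using Fin.cases with
      | zero => exact h0
      | succ a => exact congrFun h1 (Sum.inr a)

section filt
variable {R S : Type} [Ring R] [Ring S] (ι : R →+* S) (x : S)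

/-- Elements `∑_{l ≤ i} x ^ l * ι (c l)`. -/
def F (i : ℕ) : AddSubgroup S where
  carrier := {s | ∃ c : ℕ → R, s = ∑ l ∈ Finset.range (i + 1), x ^ l * ι (c l)}
  add_mem' := by
    rintro _ _ ⟨c, rfl⟩ ⟨d, rfl⟩
    exact ⟨c + d, by simp [mul_add, Finset.sum_add_distrib]⟩
  zero_mem' := ⟨0, by simp⟩
  neg_mem' := by
    rintro _ ⟨c, rfl⟩
    exact ⟨-c, by simp⟩

lemma gen_mem {i l : ℕ} (hl : l ≤ i) (r : R) : x ^ l * ι r ∈ F ι x i := by
  refine ⟨Pi.single l r, ?_⟩
  rw [Finset.sum_eq_single l]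
  · simp
  · intro b _ hb; simp [Pi.single_eq_of_ne hb]
  · intro h; exact absurd (Finset.mem_range.2 (by omega)) h

lemma pow_mul_mem {i : ℕ} (m j : ℕ) (hj : m + i ≤ j) {s : S} (hs : s ∈ F ι x i) :
    x ^ m * s ∈ F ι x j := by
  obtain ⟨c, rfl⟩ := hs
  rw [Finset.mul_sum]
  refine sum_mem fun l hl => ?_
  rw [← mul_assoc, ← pow_add]
  exact gen_mem ι x (by have := Finset.mem_range.1 hl; omega) _

lemma mul_ι_mem {i : ℕ} {s : S} (hs : s ∈ F ι x i) (r : R) : s * ι r ∈ F ι x i := by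
  obtain ⟨c, rfl⟩ := hs
  exact ⟨fun l => c l * r, by simp [Finset.sum_mul, mul_assoc]⟩

variable {ι x} {σ : R →+* R} {δ : R →+ R}

lemma ι_mul_pow_mem (hσ : Function.Surjective σ) (hx : ∀ r, x * ι r = ι (σ r) * x + ι (δ r))
    (m : ℕ) : ∀ r, ι r * x ^ m ∈ F ι x m := by
  induction m with
  | zero => intro r; simpa using gen_mem ι x (le_refl 0) r
  | succ m ih =>
    intro r
    obtain ⟨r, rfl⟩ := hσ r
    have : ι (σ r) * x ^ (m + 1) = x ^ 1 * (ι r * x ^ m) - x ^ 0 * (ι (δ r) * x ^ m) := by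
      rw [pow_one, pow_zero, one_mul, ← mul_assoc, hx, pow_succ', ← mul_assoc, add_mul,
        add_sub_cancel_right]
    rw [this]
    exact sub_mem (pow_mul_mem ι x 1 _ (by omega) (ih r)) (pow_mul_mem ι x 0 _ (by omega) (ih _))

lemma mul_mem_F (hσ : Function.Surjective σ) (hx : ∀ r, x * ι r = ι (σ r) * x + ι (δ r))
    {i j : ℕ} {s t : S} (hs : s ∈ F ι x i) (ht : t ∈ F ι x j) : s * t ∈ F ι x (i + j) := by
  obtain ⟨c, rfl⟩ := hs
  obtain ⟨d, rfl⟩ := ht
  rw [Finset.sum_mul_sum]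
  refine sum_mem fun l hl => sum_mem fun m hm => ?_
  rw [mul_assoc, ← mul_assoc (ι _)]
  exact pow_mul_mem ι x l _
    (by have := Finset.mem_range.1 hl; have := Finset.mem_range.1 hm; omega)
    (mul_ι_mem ι x (ι_mul_pow_mem hσ hx m _) _)

end filt

theorem result (R S : Type) [Ring R] [Ring S] (σ : R →+* R) (δ : R →+ R) (ι : R →+* S) (x : S)
    (hσ : Function.Surjective σ) (_hδ : IsSigmaDer σ δ) (hS : IsOreExtension σ δ ι x)
    (hR : RSRC R) : RSRC S := by
  classical
  obtain ⟨hb, hx⟩ := hS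
  intro n hn f hf
  have hι : Function.Injective ι := by
    intro a b hab
    have : Finsupp.single 0 a = Finsupp.single 0 b := hb.1 (by simp [hab])
    exact Finsupp.single_injective 0 this
  have hmono : ∀ {i j : ℕ} {s : S}, i ≤ j → s ∈ F ι x i → s ∈ F ι x j := fun hij hs => by
    simpa using pow_mul_mem ι x 0 _ (by simpa using hij) hs
  have hall : ∀ s : S, ∃ i, s ∈ F ι x i := by
    intro s
    obtain ⟨c, rfl⟩ := hb.2 s
    refine ⟨c.support.sup id, sum_mem fun l hl => ?_⟩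
    exact hmono (Finset.le_sup (f := id) hl) (ι_mul_pow_mem hσ hx l _)
  obtain ⟨g, hg⟩ := grow f hf n
  obtain ⟨G, hG⟩ := exists_mat g
  choose deg hdeg using hall
  let D : ℕ := Finset.univ.sup fun p : Fin n × (Fin n ⊕ Fin n) => deg (G p.1 p.2)
  have hGD : ∀ b a, G b a ∈ F ι x D := fun b a =>
    hmono (Finset.le_sup (f := fun p : Fin n × (Fin n ⊕ Fin n) => deg (G p.1 p.2))
      (Finset.mem_univ (b, a))) (hdeg _)
  have hGinj : ∀ v, G *ᵥ v = 0 → v = 0 := fun v hv => hg (by rw [← hG, hv, map_zero])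
  have key : ∀ k : ℕ, ∃ (α : Type) (_ : Fintype α) (M : Matrix (Fin n) α S),
      Fintype.card α = 2 ^ k * n ∧ (∀ b a, M b a ∈ F ι x (k * D)) ∧
        ∀ v, M *ᵥ v = 0 → v = 0 := by
    intro k
    induction k with
    | zero =>
      refine ⟨Fin n, inferInstance, 1, by simp, fun b a => ?_, fun v hv => by simpa using hv⟩
      rw [Matrix.one_apply]
      split_ifs
      · simpa using gen_mem ι x (le_refl 0) 1
      · exact zero_mem _
    | succ k ih =>
      obtain ⟨α, _, M, h1, h2, h3⟩ := ih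
      refine ⟨α ⊕ α, inferInstance, G * Matrix.fromBlocks M 0 0 M, ?_, fun b a => ?_,
        fun v hv => ?_⟩
      · rw [Fintype.card_sum, h1]; ring
      · rw [Matrix.mul_apply]
        refine sum_mem fun c _ => ?_
        rw [show (k + 1) * D = D + k * D by ring]
        refine mul_mem_F hσ hx (hGD b c) ?_
        rcases c with c | c <;> rcases a with a | a <;> simp [h2]
      · rw [← Matrix.mulVec_mulVec] at hv
        have h4 := hGinj _ hv
        rw [Matrix.fromBlocks_mulVec] at h4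
        simp only [Matrix.zero_mulVec, add_zero, zero_add] at h4
        have h5 := h3 _ (funext fun b => congrFun h4 (Sum.inl b))
        have h6 := h3 _ (funext fun b => congrFun h4 (Sum.inr b))
        ext (a | a)
        · exact congrFun h5 a
        · exact congrFun h6 a
  have hbound : ∀ k : ℕ, 2 ^ k * n ≤ n * (k * D + 1) := by
    intro k
    obtain ⟨α, _, M, h1, h2, h3⟩ := key k
    choose c hc using h2
    let L : Matrix (Fin n × Fin (k * D + 1)) α R := fun p a => c p.1 a p.2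
    have := card_le hR (by
        simp only [Fintype.card_prod, Fintype.card_fin]; exact Nat.mul_pos hn (Nat.succ_pos _))
      (matMap L) (by
        rw [injective_iff_map_eq_zero]
        intro v hv
        have h4 := h3 (fun a => ι (v a)) (by
          ext b
          simp only [Matrix.mulVec, dotProduct, hc, Finset.sum_mul, Pi.zero_apply]
          rw [Finset.sum_comm]
          refine Finset.sum_eq_zero fun l hl => ?_
          have h5 : ∑ a, c b a l * v a = 0 := congrFun hv (b, ⟨l, Finset.mem_range.1 hl⟩)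
          simp only [mul_assoc, ← map_mul, ← Finset.mul_sum, ← map_sum, h5, map_zero, mul_zero])
        ext a
        exact hι (by simpa using congrFun h4 a))
    simpa [h1] using this
  have h1 := hbound (2 * D + 2)
  have h2 : D + 1 < 2 ^ (D + 1) := Nat.lt_two_pow_self
  have h3 : 2 ^ (2 * D + 2) = 2 ^ (D + 1) * 2 ^ (D + 1) := by ring
  have h4 : 2 * (D + 1) ≤ 2 ^ (D + 1) := by
    have : D < 2 ^ D := Nat.lt_two_pow_self
    rw [pow_succ]; omega
  have h5 : 2 ^ (2 * D + 2) ≤ (2 * D + 2) * D + 1 :=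
    Nat.le_of_mul_le_mul_left (by rwa [mul_comm] at h1) hn
  rw [h3] at h5
  nlinarith

end Pool.Agent.Results.MP_62e324_al.OreRSRC
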